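import Pool.Agent.helper24.Welsh.Level

set_option autoImplicit false

namespace Pool.Agent.helper24.Welsh

open Finset Module

variable {V : Type} [AddCommGroup V] [Module (ZMod 2) V] [DecidableEq V] [Finite V]

theorem mainT_step (n : ℕ) (IH : ∀ m < n, TT V m) : TT V n := by
  intro O G hloop hsimp hconn hreg hrank hn2 hHC
  by_contra hcon
  push Not at hcon
  -- G is dependent
  have hGcard : 2 ≤ G.card := by
    have := finrank_cl_le O G
    omega
  have hGne : G.Nonempty := by rw [← Finset.card_pos]; omega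
  have hex : ∃ Z ⊆ G, Circ O Z := by
    obtain ⟨x, hx⟩ := hGne
    have h1 := conn_dep hconn hGcard hx
    apply exists_circ
    intro hI
    obtain ⟨A, hA, hs⟩ := mem_cl.1 h1
    have hxA : x ∉ A := fun h' => by simpa using hA h'
    have := hI (insert x A) (by
      intro w hw
      rcases Finset.mem_insert.1 hw with rfl | hw
      · exact hx
      · exact Finset.erase_subset _ _ (hA hw)) (by rw [sg_insert hxA]; exact hs)
    simp at this
  -- longest circuit
  classical
  obtain ⟨C, hCF, hCmax'⟩ : ∃ C ∈ G.powerset.filter (fun Z => Circ O Z), ∀ Z ∈ G.powerset.filter (fun Z => Circ O Z),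
      Z.card ≤ C.card := by
    apply Finset.exists_max_image
    obtain ⟨Z, hZ, hc⟩ := hex
    exact ⟨Z, by simp only [Finset.mem_filter, Finset.mem_powerset]; exact ⟨hZ, hc⟩⟩
  simp only [Finset.mem_filter, Finset.mem_powerset] at hCF hCmax'
  obtain ⟨hCG, hC⟩ := hCF
  have hCmax : ∀ Z ⊆ G, Circ O Z → Z.card ≤ C.card := fun Z h1 h2 => hCmax' Z ⟨h1, h2⟩
  have hCr := hC.finrank
  have hC3 : 3 ≤ C.card := by
    by_contra hlt
    have h1 : 1 ≤ C.card := Finset.card_pos.2 hC.1
    have h2 : C.card = 1 ∨ C.card = 2 := by omega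
    rcases h2 with h2 | h2
    · obtain ⟨x, hx⟩ := Finset.card_eq_one.1 h2
      have := hC.2.1
      rw [hx, sg_singleton] at this
      exact hloop x (hCG (by rw [hx]; simp)) this
    · obtain ⟨x, y, hxy, hx⟩ := Finset.card_eq_two.1 h2
      have := hC.2.1
      rw [hx, sg_pair hxy] at this
      exact hxy (hsimp x (hCG (by rw [hx]; simp)) y (hCG (by rw [hx]; simp)) this)
  have hCle : finrank (ZMod 2) (cl O C) ≤ finrank (ZMod 2) (cl O G) := Submodule.finrank_mono (cl_mono hCG)
  have hCn : C.card ≤ n := by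
    have := hcon C hCG hC
    omega
  -- the flat spanned by C
  obtain ⟨U, hUdef⟩ : ∃ U, U = cl O C := ⟨_, rfl⟩
  have hOU : O ≤ U := by rw [hUdef]; exact le_cl _ _
  have hCinn : C ⊆ inn G U := fun z hz => mem_inn.2 ⟨hCG hz, by rw [hUdef]; exact self_mem_cl hz⟩
  have hclU : cl O (inn G U) = U := by
    apply le_antisymm
    · exact cl_le.2 ⟨hOU, fun z hz => (mem_inn.1 hz).2⟩
    · conv_lhs => rw [hUdef]
      exact cl_mono hCinn
  have hcU : Conn O (inn G U) := by
    refine conn_closure (conn_circ hC) hC.1 hCinn ?_ ?_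
    · intro y hy; rw [← hUdef]; exact (mem_inn.1 hy).2
    · intro y hy; exact hloop y (inn_sub _ _ hy)
  have hUle : U ≤ cl O G := by rw [hUdef]; exact cl_mono hCG
  have hUr : finrank (ZMod 2) U + 1 = finrank (ZMod 2) O + C.card := by rw [hUdef]; exact hCr
  have hUlt : U < cl O G := by
    refine lt_of_le_of_ne hUle (fun e => ?_)
    rw [e] at hUr
    omega
  have hinnG : inn G (cl O G) = G := by
    ext x; rw [mem_inn]; exact ⟨fun hx => hx.1, fun hx => ⟨hx, self_mem_cl hx⟩⟩
  obtain ⟨W, hW1, hW2, hW3, hW4⟩ := select (U := U) (W := cl O G) (G := G) (N := n + 1) hUlt (by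
    intro H h1 h2 h3
    rw [hinnG]
    apply hHC H (hOU.trans h1)
    intro hall
    exact h3 (le_antisymm h2 (cl_le.2 ⟨hOU.trans h1, hall⟩)))
  have hle2 := Submodule.finrank_mono hW2
  have hle3 := finrank_lt hW1
  have hLH : LH O U W G n C.card :=
    { lt := hW1
      hU := hclU
      ne := hC.1.mono hCinn
      cU := hcU
      cK := hW3
      HC := hW4
      dU := by omega
      dW := by omega }
  obtain ⟨ρ, hρ⟩ : ∃ ρ, finrank (ZMod 2) W = finrank (ZMod 2) U + ρ := ⟨finrank (ZMod 2) W - finrank (ZMod 2) U, by omega⟩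
  obtain ⟨D, B, s, hD, hB, hDI, hDcard, hBI, hD1, hD2, hrk, ⟨x, hx, y, hy, B2, hB2, hB2card, hB2s⟩, hsc⟩ :=
    level hloop hsimp hreg hC3 hCmax IH ρ U W hLH hρ
  have hDG : D ⊆ G := hD.trans ((out_sub _ _).trans (inn_sub _ _))
  have hBG : B ⊆ G := hB.trans ((out_sub _ _).trans (inn_sub _ _))
  rw [hUdef] at hBI hD1 hD2 hB2s
  have hside := side_top (K := G) hC hBI hD1 hD2 hCG hBG hDG hCmax
  obtain ⟨R, hR, hcov, hRcard⟩ := top_count (G := G) hreg hCG hBG hDG hC hBI hD1 hD2 hside hx hy hB2 hB2s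
  have hri := rank_ineq (Z := C) hBI hD1 hD2 hx hR hcov
  rw [← hUdef] at hri
  have hDr := hDI.finrank
  rcases hRcard with hR0 | hR1
  · rw [hR0, Finset.card_empty] at hri
    omega
  · omega

theorem mainT : ∀ (n : ℕ) (O : Submodule (ZMod 2) V) (G : Finset V), (∀ x ∈ G, x ∉ O) →
    (∀ x ∈ G, ∀ y ∈ G, x + y ∈ O → x = y) → Conn O G → Reg O G →
    finrank (ZMod 2) (cl O G) = finrank (ZMod 2) O + n → 2 ≤ n →
    (∀ H, O ≤ H → ¬ (∀ x ∈ G, x ∈ H) → n + 1 ≤ 2 * (out G H).card) →
    ∃ Z ⊆ G, Circ O Z ∧ Z.card = n + 1 := by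
  intro n
  have : ∀ n, TT V n := by
    intro n
    induction n using Nat.strong_induction_on with
    | _ n ih => exact mainT_step n ih
  exact this n

end Pool.Agent.helper24.Welsh
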