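import Mathlib

/-! Definitions for the direct proof of Welsh's conjecture (MP_1cfd26_co, S07485).
`V` is a vector space over the field with two elements; all matroid notions are taken for a
finite set of vectors modulo a base subspace. -/

set_option autoImplicit false

namespace Pool.Agent.helper24.Welsh

open Finset Module

variable {V : Type} [AddCommGroup V] [Module (ZMod 2) V] [DecidableEq V]

/-- sum of a finite set of vectors -/
def sg (A : Finset V) : V := ∑ x ∈ A, x

/-- closure (span) of a finite set of vectors together with a base subspace -/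
def cl (U : Submodule (ZMod 2) V) (A : Finset V) : Submodule (ZMod 2) V :=
  U ⊔ Submodule.span (ZMod 2) (A : Set V)

open Classical in
/-- the elements of `G` inside the subspace `U` -/
noncomputable def inn (G : Finset V) (U : Submodule (ZMod 2) V) : Finset V := G.filter (· ∈ U)

open Classical in
/-- the elements of `G` outside the subspace `U` -/
noncomputable def out (G : Finset V) (U : Submodule (ZMod 2) V) : Finset V := G.filter (· ∉ U)

/-- independence modulo `U` -/
def Ind (U : Submodule (ZMod 2) V) (S : Finset V) : Prop := ∀ A ⊆ S, sg A ∈ U → A = ∅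

/-- `Z` is a circuit modulo `U` -/
def Circ (U : Submodule (ZMod 2) V) (Z : Finset V) : Prop :=
  Z.Nonempty ∧ sg Z ∈ U ∧ ∀ A ⊆ Z, A.Nonempty → sg A ∈ U → A = Z

/-- `S` is connected modulo `U`: no proper nonempty subset is a separator -/
def Conn (U : Submodule (ZMod 2) V) (S : Finset V) : Prop :=
  ∀ A ⊆ S, A.Nonempty → A ≠ S → ∃ C ⊆ S, sg C ∈ U ∧ sg (C ∩ A) ∉ U

/-- a Fano configuration of elements of `G` modulo `U` -/
def F7 (U : Submodule (ZMod 2) V) (G : Finset V) : Prop :=
  ∃ a ∈ G, ∃ b ∈ G, ∃ c ∈ G, ∃ d ∈ G, ∃ e ∈ G, ∃ f ∈ G, ∃ g ∈ G,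
    (∀ i j k : ZMod 2, i • a + j • b + k • c ∈ U → i = 0 ∧ j = 0 ∧ k = 0) ∧
    a + b + d ∈ U ∧ a + c + e ∈ U ∧ b + c + f ∈ U ∧ a + b + c + g ∈ U

/-- a dual Fano configuration of elements of `G` modulo `U` -/
def F7s (U : Submodule (ZMod 2) V) (G : Finset V) : Prop :=
  ∃ p ∈ G, ∃ q ∈ G, ∃ s ∈ G, ∃ x ∈ G, ∃ o ∈ G, ∃ y ∈ G, ∃ z ∈ G,
    (∀ i j k l : ZMod 2, i • p + j • q + k • s + l • x ∈ U → i = 0 ∧ j = 0 ∧ k = 0 ∧ l = 0) ∧
    p + q + s + o ∈ U ∧ x + p + q + y ∈ U ∧ x + p + s + z ∈ U

/-- no Fano and no dual Fano configuration in any contraction by elements of `G` -/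
def Reg (O : Submodule (ZMod 2) V) (G : Finset V) : Prop :=
  ∀ I ⊆ G, ¬ F7 (cl O I) G ∧ ¬ F7s (cl O I) G

end Pool.Agent.helper24.Welsh
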