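import Pool.Agent.helper24.Welsh.Tool

set_option autoImplicit false

namespace Pool.Agent.helper24.Welsh

open Finset Module

variable {V : Type} [AddCommGroup V] [Module (ZMod 2) V] [DecidableEq V]

omit [DecidableEq V] in
theorem Ind.sub {U : Submodule (ZMod 2) V} {A B : Finset V} (h : Ind U B) (hA : A ⊆ B) : Ind U A :=
  fun C hC => h C (hC.trans hA)

omit [AddCommGroup V] [Module (ZMod 2) V] in
theorem symmDiff_sub {S A B : Finset V} (hA : A ⊆ S) (hB : B ⊆ S) : symmDiff A B ⊆ S := by
  intro y hy
  rcases Finset.mem_symmDiff.1 hy with h | h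
  · exact hA h.1
  · exact hB h.1

/-- uniqueness of representations -/
theorem Ind.uniq {U : Submodule (ZMod 2) V} {S A B : Finset V} (h : Ind U S) (hA : A ⊆ S) (hB : B ⊆ S)
    (hs : sg A + sg B ∈ U) : A = B := by
  rw [← sg_symmDiff] at hs
  exact symmDiff_eq_bot.1 (h _ (symmDiff_sub hA hB) hs)

omit [DecidableEq V] in
theorem Ind.disj {U : Submodule (ZMod 2) V} {A B : Finset V} (hB : Ind (cl U A) B) : Disjoint A B := by
  rw [Finset.disjoint_left]
  intro x hx hx'
  have := hB {x} (by simpa using hx') (by rw [sg_singleton]; exact self_mem_cl hx)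
  simp at this

theorem Ind.union {U : Submodule (ZMod 2) V} {A B : Finset V} (hA : Ind U A) (hB : Ind (cl U A) B) : Ind U (A ∪ B) := by
  intro C hC hs
  have h1 := sg_inter_sdiff C A
  have hCA : C \ A ⊆ B := by
    intro x hx
    rw [Finset.mem_sdiff] at hx
    rcases Finset.mem_union.1 (hC hx.1) with h | h
    · exact absurd h hx.2
    · exact h
  have h2 : sg (C \ A) ∈ cl U A := by
    have h3 : sg (C ∩ A) + sg (C \ A) ∈ cl U A := by rw [h1]; exact le_cl _ _ hs
    exact (mem_congr h3).1 (sg_mem_cl Finset.inter_subset_right)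
  have h4 := hB _ hCA h2
  rw [h4, sg_empty, add_zero] at h1
  have h5 := hA (C ∩ A) Finset.inter_subset_right (by rw [h1]; exact hs)
  have h6 : C ∩ A ∪ C \ A = C := by
    ext x; simp only [Finset.mem_union, Finset.mem_inter, Finset.mem_sdiff]; tauto
  rw [← h6, h4, h5, Finset.union_empty]

omit [DecidableEq V] in
theorem Ind.anti {U U' : Submodule (ZMod 2) V} {S : Finset V} (h : Ind U' S) (hU : U ≤ U') : Ind U S :=
  fun A hA hs => h A hA (hU hs)

omit [DecidableEq V] in
theorem Circ.sub_eq {U : Submodule (ZMod 2) V} {Z A : Finset V} (h : Circ U Z) (hA : A ⊆ Z) (hs : sg A ∈ U) :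
    A = ∅ ∨ A = Z := by
  rcases A.eq_empty_or_nonempty with h0 | h0
  · exact Or.inl h0
  · exact Or.inr (h.2.2 A hA h0 hs)

theorem Circ.sides {U : Submodule (ZMod 2) V} {Z A B : Finset V} (h : Circ U Z) (hA : A ⊆ Z) (hB : B ⊆ Z)
    (hs : sg A + sg B ∈ U) : B = A ∨ B = Z \ A := by
  rw [← sg_symmDiff] at hs
  rcases h.sub_eq (symmDiff_sub hA hB) hs with h0 | h0
  · left; exact (symmDiff_eq_bot.1 h0).symm
  · right
    ext x
    have := Finset.ext_iff.1 h0 x
    rw [Finset.mem_symmDiff] at this
    rw [Finset.mem_sdiff]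
    constructor
    · intro hx
      refine ⟨hB hx, fun hxA => ?_⟩
      rcases this.2 (hB hx) with h' | h'
      · exact h'.2 hx
      · exact h'.2 hxA
    · rintro ⟨hx, hxA⟩
      rcases this.2 hx with h' | h'
      · exact absurd h'.1 hxA
      · exact h'.1

omit [DecidableEq V] in
theorem Circ.ssub_ind {U : Submodule (ZMod 2) V} {Z A : Finset V} (h : Circ U Z) (hA : A ⊆ Z) (hne : A ≠ Z) :
    Ind U A := by
  intro B hB hs
  rcases h.sub_eq (hB.trans hA) hs with h0 | h0
  · exact h0
  · exact absurd (Finset.Subset.antisymm hA (h0 ▸ hB)) hne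

theorem Circ.erase_ind {U : Submodule (ZMod 2) V} {Z : Finset V} {z : V} (h : Circ U Z) (hz : z ∈ Z) :
    Ind U (Z.erase z) :=
  h.ssub_ind (Finset.erase_subset _ _) (fun e => by
    have := e ▸ hz
    simp at this)

theorem Circ.cl_erase {U : Submodule (ZMod 2) V} {Z : Finset V} {z : V} (h : Circ U Z) (hz : z ∈ Z) :
    cl U (Z.erase z) = cl U Z := by
  apply le_antisymm (cl_mono (Finset.erase_subset _ _))
  refine cl_le.2 ⟨le_cl _ _, fun x hx => ?_⟩
  by_cases hxz : x = z
  · subst hxz
    rw [mem_cl]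
    refine ⟨Z.erase x, Finset.Subset.refl _, ?_⟩
    rw [add_comm, sg_erase hz]; exact h.2.1
  · exact self_mem_cl (Finset.mem_erase.2 ⟨hxz, hx⟩)

omit [DecidableEq V] in
/-- elements of a circuit with at least two elements are not loops -/
theorem Circ.not_mem {U : Submodule (ZMod 2) V} {Z : Finset V} {z : V} (h : Circ U Z) (h2 : 2 ≤ Z.card) (hz : z ∈ Z) :
    z ∉ U := by
  intro hU
  have := h.2.2 {z} (by simpa using hz) (by simp) (by rw [sg_singleton]; exact hU)
  rw [← this] at h2
  simp at h2

theorem Circ.not_pair {U : Submodule (ZMod 2) V} {Z : Finset V} {z z' : V} (h : Circ U Z) (h3 : 3 ≤ Z.card)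
    (hz : z ∈ Z) (hz' : z' ∈ Z) (hne : z ≠ z') : z + z' ∉ U := by
  intro hU
  have := h.2.2 {z, z'} (by
    intro x hx
    simp only [Finset.mem_insert, Finset.mem_singleton] at hx
    rcases hx with rfl | rfl <;> assumption) (by simp) (by rw [sg_pair hne]; exact hU)
  rw [← this, Finset.card_pair hne] at h3
  omega

omit [DecidableEq V] in
theorem exists_circ {U : Submodule (ZMod 2) V} {S : Finset V} (h : ¬ Ind U S) : ∃ Z ⊆ S, Circ U Z := by
  classical
  unfold Ind at h
  push Not at h
  obtain ⟨A, hA, hs, hne⟩ := h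
  -- minimal
  let F := S.powerset.filter (fun A => sg A ∈ U ∧ A.Nonempty)
  have hF : F.Nonempty := ⟨A, by simp only [F, Finset.mem_filter, Finset.mem_powerset]; exact ⟨hA, hs, hne⟩⟩
  obtain ⟨Z, hZ, hmin⟩ := Finset.exists_min_image F Finset.card hF
  simp only [F, Finset.mem_filter, Finset.mem_powerset] at hZ hmin
  refine ⟨Z, hZ.1, hZ.2.2, hZ.2.1, fun B hB hBne hBs => ?_⟩
  exact Finset.eq_of_subset_of_card_le hB (hmin B ⟨hB.trans hZ.1, hBs, hBne⟩)

/-- a circuit modulo a contraction lifts -/
theorem Circ.lift {O : Submodule (ZMod 2) V} {X Z : Finset V} (h : Circ (cl O X) Z) (hd : Disjoint Z X) :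
    ∃ X1 ⊆ X, Circ O (Z ∪ X1) := by
  classical
  obtain ⟨A, hA, hs⟩ := mem_cl.1 h.2.1
  let F := X.powerset.filter (fun A => sg Z + sg A ∈ O)
  have hF : F.Nonempty := ⟨A, by simp only [F, Finset.mem_filter, Finset.mem_powerset]; exact ⟨hA, hs⟩⟩
  obtain ⟨X1, hX1, hmin⟩ := Finset.exists_min_image F Finset.card hF
  simp only [F, Finset.mem_filter, Finset.mem_powerset] at hX1 hmin
  have hd1 : Disjoint Z X1 := hd.mono_right hX1.1
  refine ⟨X1, hX1.1, ?_, ?_, ?_⟩
  · exact h.1.mono Finset.subset_union_left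
  · rw [sg_union hd1]; exact hX1.2
  · intro B hB hBne hBs
    have e1 := sg_inter_sdiff B Z
    have hBZ : B \ Z ⊆ X1 := by
      intro x hx
      rw [Finset.mem_sdiff] at hx
      rcases Finset.mem_union.1 (hB hx.1) with h' | h'
      · exact absurd h' hx.2
      · exact h'
    have h3 : sg (B ∩ Z) ∈ cl O X := by
      have h4 : sg (B \ Z) + sg (B ∩ Z) ∈ cl O X := by rw [add_comm, e1]; exact le_cl _ _ hBs
      exact (mem_congr h4).1 (sg_mem_cl (hBZ.trans hX1.1))
    rcases h.sub_eq Finset.inter_subset_right h3 with h5 | h5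
    · -- B ⊆ X1
      exfalso
      have hBX : B ⊆ X1 := by
        have : B \ Z = B := by
          rw [Finset.sdiff_eq_self_iff_disjoint, Finset.disjoint_iff_inter_eq_empty]; exact h5
        rw [← this]; exact hBZ
      have := hmin (X1 \ B) ⟨Finset.sdiff_subset.trans hX1.1, by
        rw [sg_sdiff hBX, ← add_assoc]; exact O.add_mem hX1.2 hBs⟩
      have hlt : (X1 \ B).card < X1.card := by
        apply Finset.card_lt_card
        refine ⟨Finset.sdiff_subset, fun hh => ?_⟩
        obtain ⟨x, hx⟩ := hBne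
        exact (Finset.mem_sdiff.1 (hh (hBX hx))).2 hx
      omega
    · have hZB : Z ⊆ B := by rw [← h5]; exact Finset.inter_subset_left
      have h6 : sg Z + sg (B \ Z) ∈ O := by
        rw [h5] at e1; rw [e1]; exact hBs
      have h7 := hmin (B \ Z) ⟨hBZ.trans hX1.1, h6⟩
      have h8 := Finset.eq_of_subset_of_card_le hBZ h7
      rw [← h8]
      exact (Finset.union_sdiff_of_subset hZB).symm

/-- contracting an element of a circuit -/
theorem Circ.contract {U : Submodule (ZMod 2) V} {Z : Finset V} {e : V} (h : Circ U Z) (he : e ∈ Z) (h2 : 2 ≤ Z.card) :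
    Circ (cl U {e}) (Z.erase e) := by
  refine ⟨?_, ?_, ?_⟩
  · rw [← Finset.card_pos, Finset.card_erase_of_mem he]; omega
  · rw [mem_cl_singleton]; right; rw [sg_erase he]; exact h.2.1
  · intro A hA hne hs
    rcases mem_cl_singleton.1 hs with h' | h'
    · exfalso
      have := h.erase_ind he A hA h'
      rw [this] at hne
      simp at hne
    · have heA : e ∉ A := fun h0 => by simpa using hA h0
      have h3 : sg (insert e A) ∈ U := by rw [sg_insert heA, add_comm]; exact h'
      have h4 := h.2.2 (insert e A) (by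
        intro x hx
        rcases Finset.mem_insert.1 hx with rfl | hx
        · exact he
        · exact Finset.erase_subset _ _ (hA hx)) (by simp) h3
      rw [← h4, Finset.erase_insert heA]

/-- a circuit stays a circuit modulo an independent set over its span -/
theorem Circ.ext {U : Submodule (ZMod 2) V} {Z B : Finset V} (h : Circ U Z) (hB : Ind (cl U Z) B) :
    Circ (cl U B) Z := by
  refine ⟨h.1, le_cl _ _ h.2.1, fun A hA hne hs => ?_⟩
  obtain ⟨B1, hB1, h1⟩ := mem_cl.1 hs
  have h2 : sg B1 ∈ cl U Z := (mem_congr (le_cl U Z h1)).1 (sg_mem_cl hA)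
  have h3 := hB B1 hB1 h2
  rw [h3, sg_empty, add_zero] at h1
  exact h.2.2 A hA hne h1

variable [Finite V]

omit [DecidableEq V] in
theorem finrank_cl_le (U : Submodule (ZMod 2) V) (S : Finset V) : finrank (ZMod 2) (cl U S) ≤ finrank (ZMod 2) U + S.card := by
  have h1 := Submodule.finrank_add_le_finrank_add_finrank U (Submodule.span (ZMod 2) (S : Set V))
  have h2 : finrank (ZMod 2) (Submodule.span (ZMod 2) (S : Set V)) ≤ S.card := finrank_span_finset_le_card (R := ZMod 2) S
  rw [cl]
  omega

omit [DecidableEq V] in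
theorem finrank_lt {U W : Submodule (ZMod 2) V} (h : U < W) : finrank (ZMod 2) U < finrank (ZMod 2) W :=
  Submodule.finrank_lt_finrank_of_lt h

theorem Ind.finrank {U : Submodule (ZMod 2) V} {S : Finset V} (h : Ind U S) :
    Module.finrank (ZMod 2) (cl U S) = Module.finrank (ZMod 2) U + S.card := by
  induction S using Finset.induction_on with
  | empty => rw [cl_empty, Finset.card_empty, add_zero]
  | insert a s ha ih =>
    have ih' := ih (h.sub (Finset.subset_insert _ _))
    rw [Finset.card_insert_of_notMem ha]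
    have h1 : cl U (insert a s) = cl (cl U s) {a} := by
      rw [cl_cl, Finset.union_comm]; rfl
    have h2 := finrank_cl_le (cl U s) {a}
    rw [Finset.card_singleton] at h2
    have h3 : cl U s < cl (cl U s) {a} := by
      refine lt_of_le_of_ne (le_cl _ _) (fun e => ?_)
      have h4 : a ∈ cl U s := by rw [e]; exact self_mem_cl (by simp)
      obtain ⟨A, hA, h5⟩ := mem_cl.1 h4
      have haA : a ∉ A := fun h' => ha (hA h')
      have := h (insert a A) (Finset.insert_subset_insert _ hA) (by rw [sg_insert haA]; exact h5)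
      simp at this
    have h4 := finrank_lt h3
    rw [h1]
    omega

theorem Circ.finrank {U : Submodule (ZMod 2) V} {Z : Finset V} (h : Circ U Z) :
    Module.finrank (ZMod 2) (cl U Z) + 1 = Module.finrank (ZMod 2) U + Z.card := by
  obtain ⟨z, hz⟩ := h.1
  rw [← h.cl_erase hz, (h.erase_ind hz).finrank, Finset.card_erase_of_mem hz]
  have : 1 ≤ Z.card := Finset.card_pos.2 ⟨z, hz⟩
  omega

omit [DecidableEq V] in
/-- two elements outside a hyperplane H of W are congruent modulo H -/
theorem codim_one {H W : Submodule (ZMod 2) V} (hle : H ≤ W) (h : finrank (ZMod 2) W = finrank (ZMod 2) H + 1) {x y : V}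
    (hx : x ∈ W) (hy : y ∈ W) (hx' : x ∉ H) (hy' : y ∉ H) : x + y ∈ H := by
  classical
  have h1 : H < cl H {x} := by
    refine lt_of_le_of_ne (le_cl _ _) (fun e => hx' ?_)
    rw [e]; exact self_mem_cl (by simp)
  have h2 : cl H {x} ≤ W := cl_le.2 ⟨hle, by simpa using hx⟩
  have h3 := finrank_lt h1
  have h4 : cl H {x} = W := Submodule.eq_of_le_of_finrank_le h2 (by omega)
  rw [← h4] at hy
  rcases mem_cl_singleton.1 hy with h5 | h5
  · exact absurd h5 hy'
  · rwa [add_comm]

omit [Finite V] in
theorem exists_basis (U : Submodule (ZMod 2) V) (S : Finset V) : ∃ B ⊆ S, Ind U B ∧ cl U B = cl U S := by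
  induction S using Finset.induction_on with
  | empty => exact ⟨∅, Finset.Subset.refl _, fun A hA _ => Finset.subset_empty.1 hA, rfl⟩
  | insert a s ha ih =>
    obtain ⟨B, hB, hI, hcl⟩ := ih
    by_cases hm : a ∈ cl U s
    · refine ⟨B, hB.trans (Finset.subset_insert _ _), hI, ?_⟩
      rw [hcl]
      apply le_antisymm (cl_mono (Finset.subset_insert _ _))
      refine cl_le.2 ⟨le_cl _ _, fun x hx => ?_⟩
      rcases Finset.mem_insert.1 hx with rfl | hx
      · exact hm
      · exact self_mem_cl hx
    · refine ⟨insert a B, Finset.insert_subset_insert _ hB, ?_, ?_⟩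
      · have h1 : Ind (cl U B) {a} := by
          intro A hA hs
          rcases Finset.subset_singleton_iff.1 hA with h0 | h0
          · exact h0
          · rw [h0, sg_singleton, hcl] at hs
            exact absurd hs hm
        have := hI.union h1
        rwa [Finset.union_comm] at this
      · have e1 : cl U (insert a B) = cl (cl U B) {a} := by rw [cl_cl, Finset.union_comm]; rfl
        have e2 : cl U (insert a s) = cl (cl U s) {a} := by rw [cl_cl, Finset.union_comm]; rfl
        rw [e1, e2, hcl]

end Pool.Agent.helper24.Welsh
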