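import Pool.Agent.helper61.Welsh.CZ
import Pool.Agent.helper61.Welsh.RK
import Pool.Agent.helper39.Welsh.AR
import Pool.Agent.helper77.Welsh.SE
import Pool.Agent.helper80.Welsh.IN
import Pool.Agent.helper80.Welsh.CT

set_option autoImplicit false

namespace Pool.Agent.helper24.Welsh

open Finset Module

/-- statement of the main theorem in rank `n` -/
def TT (V : Type) [AddCommGroup V] [Module (ZMod 2) V] [DecidableEq V] (n : ℕ) : Prop :=
  ∀ (O : Submodule (ZMod 2) V) (G : Finset V), (∀ x ∈ G, x ∉ O) →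
    (∀ x ∈ G, ∀ y ∈ G, x + y ∈ O → x = y) → Conn O G → Reg O G →
    finrank (ZMod 2) (cl O G) = finrank (ZMod 2) O + n → 2 ≤ n →
    (∀ H, O ≤ H → ¬ (∀ x ∈ G, x ∈ H) → n + 1 ≤ 2 * (out G H).card) →
    ∃ Z ⊆ G, Circ O Z ∧ Z.card = n + 1

variable {V : Type} [AddCommGroup V] [Module (ZMod 2) V] [DecidableEq V]

/-- hypotheses of the level lemma -/
structure LH (O U W : Submodule (ZMod 2) V) (G : Finset V) (n c : ℕ) : Prop where
  lt : U < W
  hU : cl O (inn G U) = U
  ne : (inn G U).Nonempty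
  cU : Conn O (inn G U)
  cK : Conn U (out (inn G W) U)
  HC : ∀ H, U ≤ H → H ≤ W → H ≠ W → n + 1 ≤ 2 * (out (inn G W) H).card
  dU : finrank (ZMod 2) O + c ≤ finrank (ZMod 2) U + 1
  dW : finrank (ZMod 2) W ≤ finrank (ZMod 2) O + n

/-- conclusion of the level lemma -/
def LC (O U W : Submodule (ZMod 2) V) (G : Finset V) (n c ρ : ℕ) : Prop :=
  ∃ D B : Finset V, ∃ s : ℕ, D ⊆ out (inn G W) U ∧ B ⊆ out (inn G W) U ∧ Ind O D ∧ n + 1 ≤ 2 * D.card ∧ Ind U B ∧
    (∀ x ∈ D, x ∉ cl U B) ∧ (∀ x ∈ D, ∀ y ∈ D, x + y ∈ cl U B) ∧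
    2 * finrank (ZMod 2) (cl U D) ≤ 2 * finrank (ZMod 2) U + ρ + s ∧
    (∃ x ∈ D, ∃ y ∈ D, ∃ B2 ⊆ B, s ≤ B2.card + 1 ∧ x + y + sg B2 ∈ U) ∧ s + 1 ≤ c

omit [DecidableEq V] in
theorem inn_sub (G : Finset V) (U : Submodule (ZMod 2) V) : inn G U ⊆ G := fun _ hx => (mem_inn.1 hx).1
omit [DecidableEq V] in
theorem out_sub (G : Finset V) (U : Submodule (ZMod 2) V) : out G U ⊆ G := fun _ hx => (mem_out.1 hx).1

omit [DecidableEq V] in
theorem inn_mono_base {G : Finset V} {U W : Submodule (ZMod 2) V} (h : U ≤ W) : inn G U ⊆ inn G W := by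
  intro x hx; rw [mem_inn] at hx ⊢; exact ⟨hx.1, h hx.2⟩

omit [DecidableEq V] in
/-- the closure of the elements of `G` in `cl U Z` -/
theorem cl_inn_cl {O U : Submodule (ZMod 2) V} {G Z : Finset V} (hU : cl O (inn G U) = U) (hZG : Z ⊆ G) :
    cl O (inn G (cl U Z)) = cl U Z := by
  apply le_antisymm
  · refine cl_le.2 ⟨?_, fun x hx => (mem_inn.1 hx).2⟩
    have : O ≤ U := by rw [← hU]; exact le_cl _ _
    exact this.trans (le_cl _ _)
  · refine cl_le.2 ⟨?_, fun x hx => self_mem_cl (mem_inn.2 ⟨hZG hx, self_mem_cl hx⟩)⟩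
    conv_lhs => rw [← hU]
    exact cl_mono (inn_mono_base (le_cl _ _))

theorem conn_flat_add {O U : Submodule (ZMod 2) V} {G Z : Finset V} (hloop : ∀ x ∈ G, x ∉ O)
    (hsimp : ∀ x ∈ G, ∀ y ∈ G, x + y ∈ O → x = y) (hU : cl O (inn G U) = U) (hne : (inn G U).Nonempty)
    (hc : Conn O (inn G U)) {e e' : V} (he : e ∈ G) (he' : e' ∈ G) (hee : e ≠ e') (heU : e ∉ U) (hpar : e + e' ∈ U)
    (hZ : Circ U Z) (hZG : Z ⊆ G) (heZ : e ∈ Z) (h2 : 2 ≤ Z.card) : Conn O (inn G (cl U Z)) := by
  have hOU : O ≤ U := by rw [← hU]; exact le_cl _ _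
  have he'U : e' ∉ U := fun h => heU ((mem_congr hpar).2 h)
  have hc2 : Circ U {e, e'} := by
    refine ⟨by simp, by rw [sg_pair hee]; exact hpar, fun A hA hAne hs => ?_⟩
    by_cases h1 : e ∈ A
    · by_cases h2 : e' ∈ A
      · apply Finset.Subset.antisymm hA
        intro x hx
        simp only [Finset.mem_insert, Finset.mem_singleton] at hx
        rcases hx with rfl | rfl <;> assumption
      · exfalso
        have : A = {e} := by
          apply Finset.Subset.antisymm
          · intro x hx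
            have := hA hx
            simp only [Finset.mem_insert, Finset.mem_singleton] at this ⊢
            rcases this with rfl | rfl
            · rfl
            · exact absurd hx h2
          · simpa using h1
        rw [this, sg_singleton] at hs
        exact heU hs
    · exfalso
      have : A = {e'} := by
        apply Finset.Subset.antisymm
        · intro x hx
          have := hA hx
          simp only [Finset.mem_insert, Finset.mem_singleton] at this ⊢
          rcases this with rfl | rfl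
          · exact absurd hx h1
          · rfl
        · obtain ⟨x, hx⟩ := hAne
          have := hA hx
          simp only [Finset.mem_insert, Finset.mem_singleton] at this ⊢
          rcases this with rfl | rfl
          · exact absurd hx h1
          · simpa using hx
      rw [this, sg_singleton] at hs
      exact he'U hs
  have h3 : Conn O (inn G U ∪ {e, e'}) := by
    apply conn_add hc hne
    · rw [hU]; exact hc2
    · rw [sg_pair hee]
      intro h; exact hee (hsimp e he e' he' h)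
  have hcl1 : cl O (inn G U ∪ {e, e'}) = cl U {e} := by
    rw [← cl_cl, hU]
    apply le_antisymm
    · refine cl_le.2 ⟨le_cl _ _, fun x hx => ?_⟩
      simp only [Finset.mem_insert, Finset.mem_singleton] at hx
      rcases hx with rfl | rfl
      · exact self_mem_cl (by simp)
      · rw [mem_cl_singleton]; right; exact mem_swap hpar
    · exact cl_mono (by simp)
  have h4 : Conn O (inn G U ∪ {e, e'} ∪ Z.erase e) := by
    apply conn_add h3 (hne.mono Finset.subset_union_left)
    · rw [hcl1]; exact hZ.contract heZ h2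
    · intro h
      have h5 : sg (Z.erase e) + e ∈ U := by rw [sg_erase heZ]; exact hZ.2.1
      exact heU ((mem_congr h5).1 (hOU h))
  have hcl2 : cl O (inn G U ∪ {e, e'} ∪ Z.erase e) = cl U Z := by
    rw [← cl_cl, hcl1, ← cl_insert, Finset.insert_erase heZ]
  refine conn_closure h4 ?_ ?_ ?_ ?_
  · exact (hne.mono Finset.subset_union_left).mono Finset.subset_union_left
  · intro x hx
    have hx1 : x ∈ cl U Z := by rw [← hcl2]; exact self_mem_cl hx
    rw [mem_inn]
    refine ⟨?_, hx1⟩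
    simp only [Finset.mem_union, Finset.mem_insert, Finset.mem_singleton] at hx
    rcases hx with (h | rfl | rfl) | h
    · exact inn_sub _ _ h
    · exact he
    · exact he'
    · exact hZG (Finset.erase_subset _ _ h)
  · intro y hy
    rw [hcl2]; exact (mem_inn.1 hy).2
  · intro y hy
    exact hloop y (inn_sub _ _ hy)

variable [Finite V]

omit [Finite V] [DecidableEq V] in
theorem LH.clK {O U W : Submodule (ZMod 2) V} {G : Finset V} {n c : ℕ} [DecidableEq V] (h : LH O U W G n c) :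
    cl U (out (inn G W) U) = W := by
  by_contra hne
  have hle : cl U (out (inn G W) U) ≤ W := by
    refine cl_le.2 ⟨h.lt.le, fun x hx => ?_⟩
    exact (mem_inn.1 (out_sub _ _ hx)).2
  have h1 := h.HC _ (le_cl _ _) hle hne
  have h2 : out (inn G W) (cl U (out (inn G W) U)) = ∅ := by
    rw [Finset.eq_empty_iff_forall_notMem]
    intro x hx
    rw [mem_out] at hx
    apply hx.2
    by_cases hxU : x ∈ U
    · exact le_cl _ _ hxU
    · exact self_mem_cl (mem_out.2 ⟨hx.1, hxU⟩)
  rw [h2] at h1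
  simp at h1

omit [Finite V] in
/-- circuits modulo a flat are not longer than the longest circuit -/
theorem lift_card {O U W : Submodule (ZMod 2) V} {G : Finset V} {c : ℕ} (hU : cl O (inn G U) = U)
    (hmax : ∀ Z ⊆ G, Circ O Z → Z.card ≤ c) {Z : Finset V} (hZ : Z ⊆ out (inn G W) U) (hc : Circ U Z) : Z.card ≤ c := by
  have hd : Disjoint Z (inn G U) := by
    rw [Finset.disjoint_left]
    intro x hx hx'
    exact (mem_out.1 (hZ hx)).2 (mem_inn.1 hx').2
  rw [← hU] at hc
  obtain ⟨X1, hX1, h1⟩ := hc.lift hd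
  have h2 := hmax (Z ∪ X1) (Finset.union_subset (hZ.trans ((out_sub _ _).trans (inn_sub _ _))) (hX1.trans (inn_sub _ _))) h1
  exact (Finset.card_le_card Finset.subset_union_left).trans h2

theorem level_simple {O U W : Submodule (ZMod 2) V} {G : Finset V} {n c ρ : ℕ}
    (hreg : Reg O G) (hc3 : 3 ≤ c) (hmax : ∀ Z ⊆ G, Circ O Z → Z.card ≤ c)
    (IH : ∀ m < n, TT V m) (h : LH O U W G n c) (hρ : finrank (ZMod 2) W = finrank (ZMod 2) U + ρ) (hρ2 : 2 ≤ ρ)
    (hs : ∀ x ∈ out (inn G W) U, ∀ y ∈ out (inn G W) U, x + y ∈ U → x = y) : False := by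
  obtain ⟨K, hKdef⟩ : ∃ K, K = out (inn G W) U := ⟨_, rfl⟩
  have hclK : cl U K = W := by rw [hKdef]; exact h.clK
  have hKG : K ⊆ G := by rw [hKdef]; exact (out_sub _ _).trans (inn_sub _ _)
  have hKU : ∀ x ∈ K, x ∉ U := by rw [hKdef]; exact fun x hx => (mem_out.1 hx).2
  have hKW : ∀ x ∈ K, x ∈ W := by rw [hKdef]; exact fun x hx => (mem_inn.1 (out_sub _ _ hx)).2
  have hmemK : ∀ x, x ∈ G → x ∈ W → x ∉ U → x ∈ K := by
    intro x h1 h2 h3; rw [hKdef, mem_out, mem_inn]; exact ⟨⟨h1, h2⟩, h3⟩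
  have hregG : Reg U G := by
    have := hreg.mono (Finset.Subset.refl G) (inn_sub G U)
    rwa [h.hU] at this
  have hregK : Reg U K := hregG.sub hKG
  have hlt : finrank (ZMod 2) O + c ≤ finrank (ZMod 2) U + 1 := h.dU
  have hle := h.dW
  have hn : c - 1 + ρ ≤ n := by omega
  rw [← hKdef] at hs
  -- use T in rank ρ
  obtain ⟨Z, hZK, hZc, hZcard⟩ := IH ρ (by omega) U K hKU hs (by rw [hKdef]; exact h.cK) hregK
    (by rw [hclK]; exact hρ) hρ2 (by
      intro H hUH hnot
      have h1 := h.HC (H ⊓ W) (le_inf hUH h.lt.le) inf_le_right (by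
        intro e
        apply hnot
        intro x hx
        have : W ≤ H := by rw [← e]; exact inf_le_left
        exact this (hKW x hx))
      have h2 : out (inn G W) (H ⊓ W) ⊆ out K H := by
        intro x hx
        rw [mem_out, mem_inn] at hx
        rw [mem_out]
        have hxH : x ∉ H := fun h' => hx.2 ⟨h', hx.1.2⟩
        exact ⟨hmemK x hx.1.1 hx.1.2 (fun h' => hxH (hUH h')), hxH⟩
      have h3 := Finset.card_le_card h2
      omega)
  have hZc' : ρ + 1 ≤ c := by
    rw [← hZcard]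
    exact lift_card (W := W) h.hU hmax (by rw [← hKdef]; exact hZK) hZc
  have hn2 : 2 * ρ ≤ n := by omega
  obtain ⟨e, he⟩ := hZc.1
  have heK : e ∈ K := hZK he
  have hinn : inn K (cl U {e}) = {e} := by
    ext x
    rw [mem_inn, mem_cl_singleton, Finset.mem_singleton]
    constructor
    · rintro ⟨hx, hx' | hx'⟩
      · exact absurd hx' (hKU x hx)
      · exact hs x hx e heK hx'
    · rintro rfl
      exact ⟨heK, Or.inr (by rw [dbl]; exact U.zero_mem)⟩
  have hclZ : cl U Z = W := by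
    have h1 := hZc.finrank
    have h2 : cl U Z ≤ W := cl_le.2 ⟨h.lt.le, fun x hx => hKW x (hZK hx)⟩
    exact Submodule.eq_of_le_of_finrank_le h2 (by omega)
  have hinnKW : inn K W = K := by
    ext x; rw [mem_inn]; exact ⟨fun hx => hx.1, fun hx => ⟨hx, hKW x hx⟩⟩
  obtain ⟨x, hx, y, hy, hxy, hconn⟩ := chz (O := U) (U := cl U {e}) (W := W) (G := K) (Z := Z.erase e)
    hKU hs (by rw [hinn]) (by rw [hinn]; simp) (by rw [hinn]; exact conn_singleton _ _)
    ((Finset.erase_subset _ _).trans hZK) (hZc.contract he (by omega))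
    (by rw [Finset.card_erase_of_mem he]; omega)
    (by rw [← cl_insert, Finset.insert_erase he]; exact hclZ)
    (by rw [hinnKW, hKdef]; exact h.cK)
    (by
      intro H h1 h2 h3
      have hUH : U ≤ H := (le_cl _ _).trans h1
      have h4 := h.HC H hUH h2 h3
      have h5 : out (inn G W) H ⊆ out (inn K W) H := by
        intro x hx
        rw [mem_out, mem_inn] at hx
        rw [mem_out, hinnKW]
        exact ⟨hmemK x hx.1.1 hx.1.2 (fun h' => hx.2 (hUH h')), hx.2⟩
      have h6 := Finset.card_le_card h5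
      omega)
  -- the hyperplane
  obtain ⟨S, hSdef⟩ : ∃ S, S = insert e ((Z.erase e) \ {x, y}) := ⟨_, rfl⟩
  obtain ⟨H, hHdef⟩ : ∃ H, H = cl (cl U {e}) ((Z.erase e) \ {x, y}) := ⟨_, rfl⟩
  rw [← hHdef] at hconn
  have hHS : H = cl U S := by rw [hHdef, hSdef, cl_insert]
  have hSZ : S ⊆ Z := by
    rw [hSdef]
    intro z hz
    rcases Finset.mem_insert.1 hz with rfl | hz
    · exact he
    · exact Finset.erase_subset _ _ (Finset.mem_sdiff.1 hz).1
  have hxZ : x ∈ Z := Finset.erase_subset _ _ hx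
  have hyZ : y ∈ Z := Finset.erase_subset _ _ hy
  have hxe : x ≠ e := Finset.ne_of_mem_erase hx
  have hye : y ≠ e := Finset.ne_of_mem_erase hy
  have hxS : x ∉ S := by
    rw [hSdef]; simp [hxe]
  have hSZne : S ≠ Z := fun e' => hxS (e' ▸ hxZ)
  have hScard : S.card + 2 = Z.card := by
    have h1 : Z = S ∪ {x, y} := by
      ext z
      rw [hSdef]
      simp only [Finset.mem_union, Finset.mem_insert, Finset.mem_sdiff, Finset.mem_erase, Finset.mem_singleton]
      constructor
      · intro hz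
        by_cases hze : z = e
        · left; left; exact hze
        · by_cases hzxy : z = x ∨ z = y
          · right; exact hzxy
          · left; right; exact ⟨⟨hze, hz⟩, hzxy⟩
      · rintro ((rfl | hz) | rfl | rfl)
        · exact he
        · exact hz.1.2
        · exact hxZ
        · exact hyZ
    have hyS : y ∉ S := by rw [hSdef]; simp [hye]
    have h2 : Disjoint S {x, y} := by
      rw [Finset.disjoint_right]
      intro z hz
      simp only [Finset.mem_insert, Finset.mem_singleton] at hz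
      rcases hz with rfl | rfl <;> assumption
    have h3 := Finset.card_union_of_disjoint h2
    rw [← h1, Finset.card_pair hxy] at h3
    omega
  have hSI : Ind U S := hZc.ssub_ind hSZ hSZne
  have hHrank := hSI.finrank
  rw [← hHS] at hHrank
  have hSK : S ⊆ K := hSZ.trans hZK
  have hHW : H ≤ W := by rw [hHS]; exact cl_le.2 ⟨h.lt.le, fun z hz => hKW z (hSK hz)⟩
  have hUH : U ≤ H := by rw [hHS]; exact le_cl _ _
  have hHne : H ≠ W := by
    intro e'
    rw [e'] at hHrank
    omega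
  have hclH : cl U (inn K H) = H := by
    apply le_antisymm
    · exact cl_le.2 ⟨hUH, fun z hz => (mem_inn.1 hz).2⟩
    · conv_lhs => rw [hHS]
      refine cl_mono (fun z hz => mem_inn.2 ⟨hSK hz, ?_⟩)
      rw [hHS]; exact self_mem_cl hz
  have hcod : finrank (ZMod 2) W = finrank (ZMod 2) H + 1 := by omega
  have hDI : Ind U (out K H) := by
    refine indep_lemma (G := K) (Hs := inn K H) hregK (out_sub _ _) (inn_sub _ _) ?_ hconn ?_ ?_
    · intro a ha b hb hab
      exact hs a (out_sub _ _ ha) b (out_sub _ _ hb) hab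
    · intro a ha
      rw [hclH]; exact (mem_out.1 ha).2
    · intro a ha b hb
      rw [hclH]
      exact codim_one hHW hcod (hKW a (out_sub _ _ ha)) (hKW b (out_sub _ _ hb)) (mem_out.1 ha).2 (mem_out.1 hb).2
  have hDr := hDI.finrank
  have hDle : finrank (ZMod 2) (cl U (out K H)) ≤ finrank (ZMod 2) W :=
    Submodule.finrank_mono (cl_le.2 ⟨h.lt.le, fun z hz => hKW z (out_sub _ _ hz)⟩)
  have hfin := h.HC H hUH hHW hHne
  have hsub : out (inn G W) H ⊆ out K H := by
    intro z hz
    rw [mem_out, mem_inn] at hz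
    rw [mem_out]
    exact ⟨hmemK z hz.1.1 hz.1.2 (fun h' => hz.2 (hUH h')), hz.2⟩
  have := Finset.card_le_card hsub
  omega

theorem level_base {O U W : Submodule (ZMod 2) V} {G : Finset V} {n c : ℕ} (hsimp : ∀ x ∈ G, ∀ y ∈ G, x + y ∈ O → x = y)
    (hreg : Reg O G) (hc3 : 3 ≤ c) (h : LH O U W G n c) (hρ : finrank (ZMod 2) W = finrank (ZMod 2) U + 1) :
    LC O U W G n c 1 := by
  obtain ⟨K, hKdef⟩ : ∃ K, K = out (inn G W) U := ⟨_, rfl⟩
  have hclK : cl U K = W := by rw [hKdef]; exact h.clK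
  have hKG : K ⊆ G := by rw [hKdef]; exact (out_sub _ _).trans (inn_sub _ _)
  have hKU : ∀ x ∈ K, x ∉ U := by rw [hKdef]; exact fun x hx => (mem_out.1 hx).2
  have hKW : ∀ x ∈ K, x ∈ W := by rw [hKdef]; exact fun x hx => (mem_inn.1 (out_sub _ _ hx)).2
  have hcard : n + 1 ≤ 2 * K.card := by rw [hKdef]; exact h.HC U le_rfl h.lt.le h.lt.ne
  have hpair : ∀ x ∈ K, ∀ y ∈ K, x + y ∈ U := fun x hx y hy =>
    codim_one h.lt.le hρ (hKW x hx) (hKW y hy) (hKU x hx) (hKU y hy)
  have hne : K.Nonempty := by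
    rw [← Finset.card_pos]; omega
  obtain ⟨x, hx⟩ := hne
  refine ⟨K, ∅, 1, by rw [hKdef], Finset.empty_subset _, ?_, hcard, ?_, ?_, ?_, ?_, ?_, by omega⟩
  · refine indep_lemma (G := G) (Hs := inn G U) hreg hKG (inn_sub _ _) ?_ h.cU ?_ ?_
    · intro a ha b hb hab
      exact hsimp a (hKG ha) b (hKG hb) hab
    · rw [h.hU]; exact hKU
    · rw [h.hU]; exact hpair
  · intro A hA _; exact Finset.subset_empty.1 hA
  · rw [cl_empty]; exact hKU
  · rw [cl_empty]; exact hpair
  · rw [hclK]; omega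
  · refine ⟨x, hx, x, hx, ∅, Finset.Subset.refl _, by simp, ?_⟩
    rw [sg_empty, add_zero, dbl]; exact U.zero_mem

theorem level {O : Submodule (ZMod 2) V} {G : Finset V} {n c : ℕ} (hloop : ∀ x ∈ G, x ∉ O)
    (hsimp : ∀ x ∈ G, ∀ y ∈ G, x + y ∈ O → x = y)
    (hreg : Reg O G) (hc3 : 3 ≤ c) (hmax : ∀ Z ⊆ G, Circ O Z → Z.card ≤ c)
    (IH : ∀ m < n, TT V m) : ∀ (ρ : ℕ) (U W : Submodule (ZMod 2) V), LH O U W G n c →
      finrank (ZMod 2) W = finrank (ZMod 2) U + ρ → LC O U W G n c ρ := by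
  intro ρ
  induction ρ using Nat.strong_induction_on with
  | _ ρ ihρ =>
  intro U W h hρ
  have hρ0 : ρ ≠ 0 := by
    rintro rfl
    have := finrank_lt h.lt
    omega
  by_cases hρ1 : ρ = 1
  · subst hρ1
    exact level_base hsimp hreg hc3 h hρ
  have hρ2 : 2 ≤ ρ := by omega
  obtain ⟨K, hKdef⟩ : ∃ K, K = out (inn G W) U := ⟨_, rfl⟩
  by_cases hs : ∀ x ∈ K, ∀ y ∈ K, x + y ∈ U → x = y
  · exact (level_simple hreg hc3 hmax IH h hρ hρ2 (by rw [← hKdef]; exact hs)).elim
  push Not at hs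
  obtain ⟨e, he, e', he', hpar, hee⟩ := hs
  have hclK : cl U K = W := by rw [hKdef]; exact h.clK
  have hKG : K ⊆ G := by rw [hKdef]; exact (out_sub _ _).trans (inn_sub _ _)
  have hKU : ∀ x ∈ K, x ∉ U := by rw [hKdef]; exact fun x hx => (mem_out.1 hx).2
  have hKW : ∀ x ∈ K, x ∈ W := by rw [hKdef]; exact fun x hx => (mem_inn.1 (out_sub _ _ hx)).2
  have hmemK : ∀ x, x ∈ G → x ∈ W → x ∉ U → x ∈ K := by
    intro x h1 h2 h3; rw [hKdef, mem_out, mem_inn]; exact ⟨⟨h1, h2⟩, h3⟩
  have hregG : Reg U G := by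
    have := hreg.mono (Finset.Subset.refl G) (inn_sub G U)
    rwa [h.hU] at this
  have hdU := h.dU
  have hdW := h.dW
  have hOU : O ≤ U := by
    rw [← h.hU]; exact le_cl _ _
  -- an element outside cl U {e}
  have hf : ∃ f ∈ K, f ∉ cl U {e} := by
    by_contra hcon
    push Not at hcon
    have h1 : W ≤ cl U {e} := by
      rw [← hclK]
      exact cl_le.2 ⟨le_cl _ _, hcon⟩
    have h2 := Submodule.finrank_mono h1
    have h3 := finrank_cl_le U {e}
    rw [Finset.card_singleton] at h3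
    omega
  obtain ⟨f, hfK, hf⟩ := hf
  obtain ⟨Z1, hZ1K, hZ1c, heZ1, hZ1card⟩ := exists_long_circ (by rw [hKdef]; exact h.cK) he hfK hf
  -- longest circuit through e
  classical
  let F := K.powerset.filter (fun Z => Circ U Z ∧ e ∈ Z)
  have hF : F.Nonempty := ⟨Z1, by
    simp only [F, Finset.mem_filter, Finset.mem_powerset]
    exact ⟨hZ1K, hZ1c, heZ1⟩⟩
  obtain ⟨Z, hZF, hZmax'⟩ := Finset.exists_max_image F Finset.card hF
  simp only [F, Finset.mem_filter, Finset.mem_powerset] at hZF hZmax'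
  obtain ⟨hZK, hZc, heZ⟩ := hZF
  have hZmax : ∀ Z' ⊆ K, Circ U Z' → e ∈ Z' → Z'.card ≤ Z.card := fun Z' h1 h2 h3 => hZmax' Z' ⟨h1, h2, h3⟩
  have hZ3 : 3 ≤ Z.card := hZ1card.trans (hZmax Z1 hZ1K hZ1c heZ1)
  have hZG : Z ⊆ G := hZK.trans hKG
  have hZr := hZc.finrank
  have hZle : cl U Z ≤ W := cl_le.2 ⟨h.lt.le, fun x hx => hKW x (hZK hx)⟩
  have hflat : Conn O (inn G (cl U Z)) :=
    conn_flat_add hloop hsimp h.hU h.ne h.cU (hKG he) (hKG he') hee (hKU e he) hpar hZc hZG heZ (by omega)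
  have hZc' : Z.card ≤ c := lift_card (W := W) h.hU hmax (by rw [← hKdef]; exact hZK) hZc
  by_cases hW : cl U Z = W
  · -- spanning circuit of the level
    have hZcard : Z.card = ρ + 1 := by rw [hW] at hZr; omega
    obtain ⟨x, hx, y, hy, hxy, hconn⟩ := chz (O := O) (U := U) (W := W) (G := G) (Z := Z) hloop hsimp h.hU h.ne h.cU hZG
      hZc (by omega) hW (by rw [← hW]; exact hflat) (by
        intro H h1 h2 h3
        have := h.HC H h1 h2 h3
        omega)
    obtain ⟨B, hBdef⟩ : ∃ B, B = Z \ {x, y} := ⟨_, rfl⟩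
    obtain ⟨H, hHdef⟩ : ∃ H, H = cl U B := ⟨_, rfl⟩
    have hBZ : B ⊆ Z := by rw [hBdef]; exact Finset.sdiff_subset
    have hxyZ : ({x, y} : Finset V) ⊆ Z := by
      intro z hz
      simp only [Finset.mem_insert, Finset.mem_singleton] at hz
      rcases hz with rfl | rfl <;> assumption
    have hBcard : B.card + 2 = Z.card := by
      rw [hBdef, Finset.card_sdiff_of_subset hxyZ, Finset.card_pair hxy]; omega
    have hBne : B ≠ Z := by
      intro e1
      rw [e1] at hBcard
      omega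
    have hBI : Ind U B := hZc.ssub_ind hBZ hBne
    have hHr := hBI.finrank
    rw [← hHdef] at hHr
    have hUH : U ≤ H := by rw [hHdef]; exact le_cl _ _
    have hHW : H ≤ W := by rw [hHdef]; exact cl_le.2 ⟨h.lt.le, fun z hz => hKW z (hZK (hBZ hz))⟩
    have hHne : H ≠ W := by
      intro e1; rw [e1] at hHr; omega
    have hcod : finrank (ZMod 2) W = finrank (ZMod 2) H + 1 := by omega
    rw [← hBdef, ← hHdef] at hconn
    have hclH : cl O (inn G H) = H := by
      rw [hHdef]; exact cl_inn_cl h.hU (hBZ.trans hZG)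
    have hD1 : ∀ z ∈ out (inn G W) H, z ∉ H := fun z hz => (mem_out.1 hz).2
    have hD2 : ∀ z ∈ out (inn G W) H, ∀ z' ∈ out (inn G W) H, z + z' ∈ H := by
      intro z hz z' hz'
      exact codim_one hHW hcod (mem_inn.1 (out_sub _ _ hz)).2 (mem_inn.1 (out_sub _ _ hz')).2 (hD1 z hz) (hD1 z' hz')
    have hout : ∀ z ∈ Z, z ∉ B → z ∉ H := by
      intro z hz hzB hzH
      rw [hHdef, mem_cl] at hzH
      obtain ⟨A, hA, hs1⟩ := hzH
      have hzA : z ∉ A := fun h' => hzB (hA h')
      have h1 := hZc.sub_eq (A := insert z A) (by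
        intro w hw
        rcases Finset.mem_insert.1 hw with rfl | hw
        · exact hz
        · exact hBZ (hA hw)) (by rw [sg_insert hzA]; exact hs1)
      rcases h1 with h1 | h1
      · simp at h1
      · have h2 := congrArg Finset.card h1
        rw [Finset.card_insert_of_notMem hzA] at h2
        have h3 := Finset.card_le_card hA
        omega
    have hxB : x ∉ B := by rw [hBdef]; simp
    have hyB : y ∉ B := by rw [hBdef]; simp
    have hDsub : out (inn G W) H ⊆ out (inn G W) U := by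
      intro z hz
      rw [mem_out] at hz ⊢
      exact ⟨hz.1, fun h' => hz.2 (hUH h')⟩
    refine ⟨out (inn G W) H, B, ρ, hDsub, ?_, ?_, h.HC H hUH hHW hHne, hBI, ?_, ?_, ?_, ?_, by omega⟩
    · rw [← hKdef]; exact hBZ.trans hZK
    · refine indep_lemma (G := G) (Hs := inn G H) hreg ((out_sub _ _).trans (inn_sub _ _)) (inn_sub _ _) ?_ hconn ?_ ?_
      · intro a ha b hb hab
        exact hsimp a (inn_sub _ _ (out_sub _ _ ha)) b (inn_sub _ _ (out_sub _ _ hb)) hab
      · rw [hclH]; exact hD1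
      · rw [hclH]; exact hD2
    · rw [← hHdef]; exact hD1
    · rw [← hHdef]; exact hD2
    · have h1 : finrank (ZMod 2) (cl U (out (inn G W) H)) ≤ finrank (ZMod 2) W :=
        Submodule.finrank_mono (cl_le.2 ⟨h.lt.le, fun z hz => (mem_inn.1 (out_sub _ _ hz)).2⟩)
      omega
    · refine ⟨x, ?_, y, ?_, B, Finset.Subset.refl _, by omega, ?_⟩
      · rw [mem_out, mem_inn]; exact ⟨⟨hZG hx, hKW x (hZK hx)⟩, hout x hx hxB⟩
      · rw [mem_out, mem_inn]; exact ⟨⟨hZG hy, hKW y (hZK hy)⟩, hout y hy hyB⟩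
      · have h1 : sg B = sg Z + sg {x, y} := by rw [hBdef, sg_sdiff hxyZ]
        rw [h1, sg_pair hxy]
        have h2 : x + y + (sg Z + (x + y)) = sg Z + ((x + y) + (x + y)) := by abel
        rw [h2, dbl, add_zero]
        exact hZc.2.1
  · -- go down to a component above
    have hlt : cl U Z < W := lt_of_le_of_ne hZle hW
    have hUU' : U ≤ cl U Z := le_cl _ _
    obtain ⟨W', hW'1, hW'2, hW'3, hW'4⟩ := select (U := cl U Z) (W := W) (G := G) (N := n + 1) hlt
      (fun H h1 h2 h3 => h.HC H (hUU'.trans h1) h2 h3)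
    have hle1 := Submodule.finrank_mono hUU'
    have hle2 := Submodule.finrank_mono hW'2
    have hle3 := finrank_lt hW'1
    have hLH : LH O (cl U Z) W' G n c :=
      { lt := hW'1
        hU := cl_inn_cl h.hU hZG
        ne := h.ne.mono (inn_mono_base hUU')
        cU := hflat
        cK := hW'3
        HC := hW'4
        dU := by omega
        dW := by omega }
    obtain ⟨ρ', hρ'⟩ : ∃ ρ', finrank (ZMod 2) W' = finrank (ZMod 2) (cl U Z) + ρ' := ⟨finrank (ZMod 2) W' - finrank (ZMod 2) (cl U Z), by omega⟩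
    obtain ⟨D, B', s, hD, hB', hDI, hDcard, hBI, hD1, hD2, hrk, ⟨x, hx, y, hy, B2, hB2, hB2card, hB2s⟩, hsc⟩ :=
      ihρ ρ' (by omega) (cl U Z) W' hLH hρ'
    have hsubK : out (inn G W') (cl U Z) ⊆ K := by
      intro z hz
      rw [mem_out, mem_inn] at hz
      exact hmemK z hz.1.1 (hW'2 hz.1.2) (fun h' => hz.2 (hUU' h'))
    have hDK : D ⊆ K := hD.trans hsubK
    have hB'K : B' ⊆ K := hB'.trans hsubK
    have hBI' : Ind (cl U (Z.erase e)) B' := by rw [hZc.cl_erase heZ]; exact hBI
    have hclB : cl U (Z.erase e ∪ B') = cl (cl U Z) B' := by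
      rw [← cl_cl, hZc.cl_erase heZ]
    -- counting
    have hside := side_rooted (K := K) hZc hBI hD1 hD2 hZK hB'K hDK heZ hZmax
    obtain ⟨R, hR, hcov, hRcard⟩ := rooted_count (G := G) hregG hZG (hB'K.trans hKG) (hDK.trans hKG) hZc hBI hD1 hD2 heZ hside hx
    have hri := rank_ineq (Z := Z) hBI hD1 hD2 hx hR hcov
    refine ⟨D, Z.erase e ∪ B', s, by rw [← hKdef]; exact hDK, ?_, hDI, hDcard, ?_, ?_, ?_, ?_, ?_, hsc⟩
    · rw [← hKdef]
      exact Finset.union_subset ((Finset.erase_subset _ _).trans hZK) hB'K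
    · exact (hZc.erase_ind heZ).union hBI'
    · rw [hclB]; exact hD1
    · rw [hclB]; exact hD2
    · omega
    · rw [← hZc.cl_erase heZ, mem_cl] at hB2s
      obtain ⟨A, hA, hAs⟩ := hB2s
      refine ⟨x, hx, y, hy, A ∪ B2, Finset.union_subset_union hA hB2, ?_, ?_⟩
      · have := Finset.card_le_card (Finset.subset_union_right : B2 ⊆ A ∪ B2)
        omega
      · have hd : Disjoint A B2 := (hBI'.disj.mono_left hA).mono_right hB2
        rw [sg_union hd]
        have e1 : x + y + (sg A + sg B2) = x + y + sg B2 + sg A := by abel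
        rw [e1]; exact hAs

end Pool.Agent.helper24.Welsh
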