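import Pool.Agent.helper24.Welsh.Defs

set_option autoImplicit false

namespace Pool.Agent.helper24.Welsh

open Finset Module

variable {V : Type} [AddCommGroup V] [Module (ZMod 2) V] [DecidableEq V]

omit [DecidableEq V] in
/-- everything has order two -/
theorem dbl (x : V) : x + x = 0 := ZModModule.add_self x

omit [DecidableEq V] in
theorem neg_eq (x : V) : -x = x := ZModModule.neg_eq_self x

omit [DecidableEq V] in
/-- x + (x + y) = y -/
theorem add_cancel2 (x y : V) : x + (x + y) = y := by rw [← add_assoc, dbl, zero_add]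

omit [DecidableEq V] in
theorem mem_swap {U : Submodule (ZMod 2) V} {x y : V} (h : x + y ∈ U) : y + x ∈ U := by
  rwa [add_comm]

omit [DecidableEq V] in
/-- transitivity of congruence modulo `U` -/
theorem mem_trans {U : Submodule (ZMod 2) V} {x y z : V} (h : x + y ∈ U) (h' : y + z ∈ U) : x + z ∈ U := by
  have := U.add_mem h h'
  have e : x + y + (y + z) = x + z := by
    rw [add_assoc, add_cancel2]
  rwa [e] at this

omit [DecidableEq V] in
/-- congruent vectors are simultaneously in `U` -/
theorem mem_congr {U : Submodule (ZMod 2) V} {x y : V} (h : x + y ∈ U) : x ∈ U ↔ y ∈ U := by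
  constructor
  · intro hx
    have := U.add_mem hx h
    rwa [add_cancel2] at this
  · intro hy
    have := U.add_mem hy (mem_swap h)
    rwa [add_cancel2] at this

omit [DecidableEq V] [Module (ZMod 2) V] in
theorem sg_empty : sg (∅ : Finset V) = 0 := by simp [sg]

omit [DecidableEq V] [Module (ZMod 2) V] in
theorem sg_singleton (x : V) : sg ({x} : Finset V) = x := by simp [sg]

omit [Module (ZMod 2) V] in
theorem sg_pair {x y : V} (h : x ≠ y) : sg ({x, y} : Finset V) = x + y := by
  simp [sg, Finset.sum_pair h]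

omit [Module (ZMod 2) V] in
theorem sg_insert {x : V} {A : Finset V} (h : x ∉ A) : sg (insert x A) = x + sg A := by
  simp [sg, Finset.sum_insert h]

omit [Module (ZMod 2) V] in
theorem sg_erase {x : V} {A : Finset V} (h : x ∈ A) : sg (A.erase x) + x = sg A := by
  simp only [sg]
  rw [add_comm]
  exact Finset.add_sum_erase A (fun x => x) h

omit [Module (ZMod 2) V] in
theorem sg_union {A B : Finset V} (h : Disjoint A B) : sg (A ∪ B) = sg A + sg B := by
  simp [sg, Finset.sum_union h]

theorem sg_sdiff {A B : Finset V} (h : A ⊆ B) : sg (B \ A) = sg B + sg A := by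
  have : sg (B \ A) + sg A = sg B := by
    simp only [sg]; exact Finset.sum_sdiff h
  rw [← this, add_assoc, dbl, add_zero]

omit [Module (ZMod 2) V] in
theorem sg_inter_sdiff (A B : Finset V) : sg (A ∩ B) + sg (A \ B) = sg A := by
  simp only [sg]
  exact Finset.sum_inter_add_sum_sdiff A B (fun x => x)

theorem sg_symmDiff (A B : Finset V) : sg (symmDiff A B) = sg A + sg B := by
  have h1 : symmDiff A B = (A \ B) ∪ (B \ A) := rfl
  have h2 : Disjoint (A \ B) (B \ A) := by
    rw [Finset.disjoint_left]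
    intro x hx hx'
    simp only [mem_sdiff] at hx hx'
    exact hx.2 hx'.1
  rw [h1, sg_union h2]
  have e1 := sg_inter_sdiff A B
  have e2 := sg_inter_sdiff B A
  rw [← e1, ← e2, Finset.inter_comm B A]
  have := dbl (sg (A ∩ B))
  calc sg (A \ B) + sg (B \ A) = (sg (A ∩ B) + sg (A ∩ B)) + (sg (A \ B) + sg (B \ A)) := by rw [this, zero_add]
    _ = _ := by abel

omit [DecidableEq V] in
theorem le_cl (U : Submodule (ZMod 2) V) (A : Finset V) : U ≤ cl U A := le_sup_left

omit [DecidableEq V] in
theorem self_mem_cl {U : Submodule (ZMod 2) V} {A : Finset V} {x : V} (h : x ∈ A) : x ∈ cl U A :=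
  (le_sup_right : _ ≤ cl U A) (Submodule.subset_span h)

omit [DecidableEq V] in
theorem sg_mem_cl {U : Submodule (ZMod 2) V} {A B : Finset V} (h : B ⊆ A) : sg B ∈ cl U A :=
  Submodule.sum_mem _ fun _ hx => self_mem_cl (h hx)

omit [DecidableEq V] in
theorem cl_le {U W : Submodule (ZMod 2) V} {S : Finset V} : cl U S ≤ W ↔ U ≤ W ∧ ∀ x ∈ S, x ∈ W := by
  rw [cl, sup_le_iff, Submodule.span_le]
  rfl

theorem mem_cl {U : Submodule (ZMod 2) V} {S : Finset V} {x : V} : x ∈ cl U S ↔ ∃ A ⊆ S, x + sg A ∈ U := by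
  constructor
  · intro hx
    let T : Submodule (ZMod 2) V :=
      { carrier := {x | ∃ A ⊆ S, x + sg A ∈ U}
        add_mem' := by
          rintro a b ⟨A, hA, ha⟩ ⟨B, hB, hb⟩
          refine ⟨symmDiff A B, ?_, ?_⟩
          · intro y hy
            rcases Finset.mem_symmDiff.1 hy with h | h
            · exact hA h.1
            · exact hB h.1
          · rw [sg_symmDiff]
            have := U.add_mem ha hb
            have e : a + b + (sg A + sg B) = a + sg A + (b + sg B) := by abel
            rwa [e]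
        zero_mem' := ⟨∅, Finset.empty_subset _, by simp [sg_empty]⟩
        smul_mem' := by
          rintro c x ⟨A, hA, ha⟩
          have hc : c = 0 ∨ c = 1 := by
            revert c; decide
          rcases hc with rfl | rfl
          · refine ⟨∅, Finset.empty_subset _, by simp [sg_empty]⟩
          · exact ⟨A, hA, by simpa using ha⟩ }
    have hle : cl U S ≤ T := by
      rw [cl_le]
      refine ⟨fun u hu => ⟨∅, Finset.empty_subset _, by simpa [sg_empty] using hu⟩, fun y hy => ⟨{y}, by simpa using hy, ?_⟩⟩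
      rw [sg_singleton, dbl]; exact U.zero_mem
    exact hle hx
  · rintro ⟨A, hA, h⟩
    exact (mem_congr (le_cl U S h)).2 (sg_mem_cl hA)

omit [DecidableEq V] in
theorem cl_mono {U : Submodule (ZMod 2) V} {A B : Finset V} (h : A ⊆ B) : cl U A ≤ cl U B :=
  cl_le.2 ⟨le_cl _ _, fun _ hx => self_mem_cl (h hx)⟩

omit [DecidableEq V] in
theorem cl_mono_base {U U' : Submodule (ZMod 2) V} (A : Finset V) (h : U ≤ U') : cl U A ≤ cl U' A :=
  cl_le.2 ⟨h.trans (le_cl _ _), fun _ hx => self_mem_cl hx⟩

omit [DecidableEq V] in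
theorem cl_empty (U : Submodule (ZMod 2) V) : cl U ∅ = U :=
  le_antisymm (cl_le.2 ⟨le_rfl, by simp⟩) (le_cl _ _)

theorem cl_cl (U : Submodule (ZMod 2) V) (A B : Finset V) : cl (cl U A) B = cl U (A ∪ B) := by
  apply le_antisymm
  · refine cl_le.2 ⟨cl_mono Finset.subset_union_left, fun x hx => self_mem_cl (Finset.mem_union_right _ hx)⟩
  · refine cl_le.2 ⟨(le_cl _ _).trans (le_cl _ _), fun x hx => ?_⟩
    rcases Finset.mem_union.1 hx with h | h
    · exact le_cl _ _ (self_mem_cl h)
    · exact self_mem_cl h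

theorem cl_comm (U : Submodule (ZMod 2) V) (A B : Finset V) : cl (cl U A) B = cl (cl U B) A := by
  rw [cl_cl, cl_cl, Finset.union_comm]

theorem cl_insert (U : Submodule (ZMod 2) V) (x : V) (A : Finset V) : cl U (insert x A) = cl (cl U {x}) A := by
  rw [cl_cl]; rfl

theorem mem_cl_singleton {U : Submodule (ZMod 2) V} {x y : V} : y ∈ cl U {x} ↔ y ∈ U ∨ y + x ∈ U := by
  rw [mem_cl]
  constructor
  · rintro ⟨A, hA, h⟩
    rcases Finset.subset_singleton_iff.1 hA with rfl | rfl
    · left; simpa [sg_empty] using h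
    · right; simpa [sg_singleton] using h
  · rintro (h | h)
    · exact ⟨∅, Finset.empty_subset _, by simpa [sg_empty] using h⟩
    · exact ⟨{x}, Finset.Subset.refl _, by simpa [sg_singleton] using h⟩

omit [DecidableEq V] in
theorem mem_inn {G : Finset V} {U : Submodule (ZMod 2) V} {x : V} : x ∈ inn G U ↔ x ∈ G ∧ x ∈ U := by
  simp [inn]

omit [DecidableEq V] in
theorem mem_out {G : Finset V} {U : Submodule (ZMod 2) V} {x : V} : x ∈ out G U ↔ x ∈ G ∧ x ∉ U := by
  simp [out]

omit [DecidableEq V] in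
theorem F7.mono {U : Submodule (ZMod 2) V} {G G' : Finset V} (h : F7 U G') (hG : G' ⊆ G) : F7 U G := by
  obtain ⟨a, ha, b, hb, c, hc, d, hd, e, he, f, hf, g, hg, h⟩ := h
  exact ⟨a, hG ha, b, hG hb, c, hG hc, d, hG hd, e, hG he, f, hG hf, g, hG hg, h⟩

omit [DecidableEq V] in
theorem F7s.mono {U : Submodule (ZMod 2) V} {G G' : Finset V} (h : F7s U G') (hG : G' ⊆ G) : F7s U G := by
  obtain ⟨a, ha, b, hb, c, hc, d, hd, e, he, f, hf, g, hg, h⟩ := h
  exact ⟨a, hG ha, b, hG hb, c, hG hc, d, hG hd, e, hG he, f, hG hf, g, hG hg, h⟩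

theorem Reg.mono {O : Submodule (ZMod 2) V} {G G' I : Finset V} (h : Reg O G) (hG : G' ⊆ G) (hI : I ⊆ G) :
    Reg (cl O I) G' := by
  intro J hJ
  have hIJ : I ∪ J ⊆ G := Finset.union_subset hI (hJ.trans hG)
  rw [cl_cl]
  exact ⟨fun h' => (h _ hIJ).1 (h'.mono hG), fun h' => (h _ hIJ).2 (h'.mono hG)⟩

theorem Reg.sub {O : Submodule (ZMod 2) V} {G G' : Finset V} (h : Reg O G) (hG : G' ⊆ G) : Reg O G' := by
  have := h.mono hG (Finset.empty_subset _)
  rwa [cl_empty] at this

/-- parity: vectors in one class modulo `H`, not in `H` -/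
theorem parity {H : Submodule (ZMod 2) V} {D A : Finset V} (h1 : ∀ x ∈ D, x ∉ H) (h2 : ∀ x ∈ D, ∀ y ∈ D, x + y ∈ H)
    (hA : A ⊆ D) : sg A ∈ H ↔ Even A.card := by
  have key : ∀ A ⊆ D, (sg A ∈ H ∧ Even A.card) ∨ ((∀ x ∈ D, sg A + x ∈ H) ∧ ¬ Even A.card) := by
    intro A
    induction A using Finset.induction_on with
    | empty =>
      intro _
      left
      exact ⟨by rw [sg_empty]; exact H.zero_mem, by simp⟩
    | insert a s ha ih =>
      intro hs
      have has : a ∈ D := hs (Finset.mem_insert_self _ _)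
      have hs' : s ⊆ D := fun x hx => hs (Finset.mem_insert_of_mem hx)
      rcases ih hs' with ⟨h, he⟩ | ⟨h, he⟩
      · right
        refine ⟨fun x hx => ?_, ?_⟩
        · rw [sg_insert ha]
          have := H.add_mem h (h2 a has x hx)
          have e : a + sg s + x = sg s + (a + x) := by abel
          rwa [e]
        · rw [Finset.card_insert_of_notMem ha, Nat.even_add_one]
          exact not_not.2 he
      · left
        refine ⟨?_, ?_⟩
        · rw [sg_insert ha, add_comm]; exact h a has
        · rw [Finset.card_insert_of_notMem ha, Nat.even_add_one]; exact he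
  rcases key A hA with ⟨h, he⟩ | ⟨h, he⟩
  · exact ⟨fun _ => he, fun _ => h⟩
  · constructor
    · intro hs
      exfalso
      have hne : A.Nonempty := by
        rw [Finset.nonempty_iff_ne_empty]
        rintro rfl
        exact he (by simp)
      obtain ⟨x, hx⟩ := hne
      exact h1 x (hA hx) ((mem_congr (h x (hA hx))).1 hs)
    · intro he'; exact absurd he' he

end Pool.Agent.helper24.Welsh
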